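import Pool.Agent.L0h32.CX.All
import Pool.Agent.L0h32.UY.All2
import Pool.Agent.L0h32.UY.Core
import Pool.Agent.L0h32.UZ.Cost

/-!
# Zero-error probabilistic 1-limited automata

The cost `D(n)` of determinizing 1-limited automata (LAs) lies between `2 ^ Ω(n ^ 2)` and
`2 ^ O(n ^ 4)` (the starting files of this problem). Here the guesses are replaced by coins. An LA `M`
with accepting states `F` and rejecting states `G` is a *zero-error* (Las Vegas) automaton if no word
has both a computation that ends in `F` and one that ends in `G`, and if on every word the random
computation, in which each time the next configuration is chosen with the uniform distribution on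
the possible ones, ends in `F ∪ G` with probability one. So a word is in the language if and only if
the random computation ends in `F` with probability one, and otherwise it ends in `G` with
probability one. (There is no bound for the expected time.)

Let `LV(n)` be the worst-case cost of the conversion of LAs of size `n` into zero-error automata. We
show `2 ^ (n ^ 2 / (2 * 10 ^ 11)) ≤ LV(n) ≤ 2 ^ (300 n ^ 2)`; and one-way nondeterministic automata with
less than `r` states and less than `r` letters have zero-error LAs of size `(2 r) ^ 448`, polynomial in
`r`. In all these automata what is written in a cell is determined by the input (and not by the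
coins). So the gap between `2 ^ Ω(n ^ 2)` and `2 ^ O(n ^ 4)` that is open for `D(n)` is a question of
derandomization: it is the cost of the step from zero-error probabilistic LAs, with random moves only,
to deterministic ones.

Proof. The machine is the one of `UnambiguousCost` with additional moves: the computation of the next
bit of the annotation can be given up at any time, and then it starts again from the beginning of
this computation. The invariants of the machine say that every answer is right; from every reachable
configuration one can go back to the beginning of the computation of the present bit and then, by a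
right sequence of guesses, to the next cell, and finally to the answer. As there are only finitely
many reachable configurations on each word, the random computation ends with probability one. The
lower bound is the one for self-verifying automata (`UnambiguousCost`).

The modules of the proof were written by helpers 2, 4, 6, 10, 24, 29, 33, 34, 36, 39, 55, 56, 59, 60,
61, 66, 71, 75, 78, 83, 85, 88, 90, 95 and 32; those of this file by 24 (UPV), 34 (MVV), 39 (RST,
DWU), 55 (SNV), 61 (PRB), 95 (LIV).
-/

set_option autoImplicit false

namespace Pool.Agent.Results.MP_0036f5_lc.LasVegasCost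

open Pool.Agent.H630R2.LA
open Pool.Agent.L0h32.CX (svCosts V C SelfVerifying C_lower C_le_V)
open Pool.Agent.L0h32.UY (DetWrites core_v la_rel nfa_rel exists_h t_UPV t_DWV t_SNV t_LIV t_PRB)
open Pool.Agent.L0h32.UZ (LasVegas lvCosts LV LV_greatest LV_le V_le_LV)

/-- For both readings `strict` of the rule that visited cells are frozen: the cost `LV(n)` of the
conversion of 1-limited automata into zero-error probabilistic ones is `2 ^ Θ(n ^ 2)`, and it is
polynomial for one-way nondeterministic automata. -/
theorem result (strict : Prop) :
    (∀ n : ℕ, 4 ≤ n → IsGreatest (lvCosts strict n) (LV strict n)) ∧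
    (∀ n : ℕ, 680000 ≤ n → 2 ^ (n ^ 2 / (2 * 10 ^ 11)) ≤ LV strict n) ∧
    (∀ n : ℕ, V strict n ≤ LV strict n ∧ LV strict n ≤ 2 ^ (300 * n ^ 2)) ∧
    (∀ (A : Type) [Finite A] (M : LimAut A) (n : ℕ), M.size ≤ n →
      ∃ (M' : LimAut A) (G : Set M'.Q), LasVegas strict M' G ∧ SelfVerifying strict M' G ∧
        DetWrites strict M' ∧ M'.language strict = M.language strict ∧
        M'.size + G.ncard ≤ 2 ^ (300 * n ^ 2)) ∧
    (∀ (A σ : Type) [Finite A] [Finite σ] (P : NFA A σ) (r : ℕ), Nat.card σ < r → Nat.card A < r →
      ∃ (M' : LimAut A) (G : Set M'.Q), LasVegas strict M' G ∧ SelfVerifying strict M' G ∧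
        DetWrites strict M' ∧ M'.language strict = {w | w ∈ P.accepts} ∧
        M'.size + G.ncard ≤ (2 * r) ^ 448) := by
  have hC := Pool.Agent.L0h85.UX.t_CARD
  have hW := Pool.Agent.L0h32.UX.t_WGT
  refine ⟨fun n hn => LV_greatest t_UPV strict n hn, fun n hn => ?_,
    fun n => ⟨V_le_LV t_UPV strict n, LV_le t_UPV strict n⟩, ?_, ?_⟩
  · have hU := Pool.Agent.L0h32.CX.t_UPP
    exact (C_lower hU Pool.Agent.L0h32.CX.t_LOW strict n hn).trans
      ((C_le_V hU Pool.Agent.L0h32.CX.t_UNI strict n).trans (V_le_LV t_UPV strict n))
  · intro A _ M n hn
    obtain ⟨h1, h2, rel, p0, facc, h3⟩ := la_rel strict M n hn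
    obtain ⟨M', G, h4, h5, h6, h7⟩ := core_v hC hW t_SNV t_LIV t_PRB t_DWV strict (n ^ 2) rel p0
      facc h1
    refine ⟨M', G, h4, h4.sv, h5, ?_, h7.trans (Nat.pow_le_pow_right (by norm_num) h2)⟩
    ext w
    rw [h6, h3]
  · intro A σ _ _ P r h1 h2
    obtain ⟨h, h3, h4⟩ := exists_h r (by omega)
    obtain ⟨rel, p0, facc, h5⟩ := nfa_rel P h (by omega)
    obtain ⟨M', G, h6, h7, h8, h9⟩ := core_v hC hW t_SNV t_LIV t_PRB t_DWV strict h rel p0 facc
      (by omega)
    refine ⟨M', G, h6, h6.sv, h7, ?_, h9.trans h4⟩
    ext w
    rw [h8]
    exact (h5 w).symm

end Pool.Agent.Results.MP_0036f5_lc.LasVegasCost
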