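import Mathlib
import Pool.Agent.L0h67.CQ.Size
import Pool.Agent.L0h67.CQ.Nfa
import Pool.Agent.Results.MP_0036f5_lc.Growth

/-!
# 1-limited automata of size `O(n)` have `n ^ 2` cells of nondeterministic memory

A queue machine (`QM`) is a one-way nondeterministic machine with finitely many control states whose
memory is a queue of a fixed length `k` over a finite alphabet; in each step it reads a letter,
removes the first symbol of the queue and appends a new one (a Turing machine with a circular tape
of `k` cells whose head moves one cell further in each step).

* For every queue machine `T` there is a constant `c` such that for all `n ≥ 2` the language of `T`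
  with a queue of length `n ^ 2` is accepted by a 1-limited automaton of size at most `c (n + 1)`.
  So the least size of a deterministic 1-limited automaton for this language is at most
  `D(c (n + 1))`.
* One queue machine `U` is universal: the computations of every one-way nondeterministic automaton
  with at most `2 ^ k` states are coded by computations of `U` with a queue of length `k`.

The known proof of the upper bound for `D(n)` first turns a 1-limited automaton of size `n` into a
one-way nondeterministic automaton with `2 ^ (n ^ 2)` states. By this result nothing is lost
in this step, and an upper bound for `D(n)` needs a way to determinize, by 1-limited automata, the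
coded computations of all one-way nondeterministic automata with `2 ^ Ω(n ^ 2)` states.

Proof. The automaton writes in each cell the symbol appended to the queue, and a mark in every
`n`-th cell. To find the symbol which was written `n ^ 2` cells before the first unvisited cell `t`,
it moves to the left until it has seen `n` marks; it then guesses the right cell among the next `n`
cells and returns to the cell `t`, counting its steps modulo `n`. There is exactly one cell in this
window which is congruent to `t` modulo `n`.
-/

set_option autoImplicit false

namespace Pool.Agent.Results.MP_0036f5_lc.QueueMachines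

open Pool.Agent.H630R2.LA Pool.Agent.L0h67.CQ

theorem accepted (strict : Prop) (A : Type) [Finite A] (T : QM A) (n : ℕ) (hn : 2 ≤ n) :
    ∃ M : LimAut A, M.language strict = T.language (n ^ 2) ∧
      M.size ≤ 253 * (Nat.card T.S * Nat.card T.Y) ^ 2 * (Nat.card A + Nat.card T.Y) * (n + 1) := by
  have : NeZero n := ⟨by omega⟩
  refine ⟨mach T n, ?_, size_mach T n⟩
  rw [language_eq_lang T (n ^ 2) (Nat.one_le_pow _ _ (by omega))]
  exact language_eq T n hn strict

theorem detSize_le (strict : Prop) (A : Type) [Finite A] (T : QM A) (n : ℕ) (hn : 2 ≤ n) :
    (∃ M : LimAut A, M.Deterministic ∧ M.language strict = T.language (n ^ 2) ∧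
      M.size = detSize strict (T.language (n ^ 2))) ∧
    detSize strict (T.language (n ^ 2)) ≤ D strict
      (253 * (Nat.card T.S * Nat.card T.Y) ^ 2 * (Nat.card A + Nat.card T.Y) * (n + 1)) := by
  obtain ⟨M, h1, h2⟩ := accepted strict A T n hn
  constructor
  · obtain ⟨M', h3, h4, -⟩ := upper M strict
    have hne : {s | ∃ M : LimAut A, M.Deterministic ∧
        M.language strict = T.language (n ^ 2) ∧ M.size = s}.Nonempty :=
      ⟨_, M', h3, h4.trans h1, rfl⟩
    exact Nat.sInf_mem hne
  · refine le_csSup (Growth.bdd strict _) ⟨A, inferInstance, M, h2, ?_⟩
    rw [h1]

/-- **Queue machines and 1-limited automata.** For both readings `strict` of the rule that visited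
cells are frozen:
(1) Let `T` be a queue machine over an alphabet with `a` letters, with `s` control states and `y`
queue symbols, and let `n ≥ 2`. The language of `T` with a queue of length `n ^ 2` is accepted
by a 1-limited automaton of size at most `253 (s y) ^ 2 (a + y) (n + 1)`; the least size of a
deterministic 1-limited automaton for it is attained and at most
`D(253 (s y) ^ 2 (a + y) (n + 1))`.
(2) For the machine `U`, with four control states, two queue symbols and seventeen letters, the
least size of a deterministic 1-limited automaton for the language of `U` with a queue of length
`n ^ 2` is at most `D(307648 (n + 1))`.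
(3) `U` is universal: for every `k ≥ 1` and every one-way nondeterministic automaton `N` with at
most `2 ^ k` states, over any alphabet `B`, there are words `u`, `v` and a map `φ` of `B` to
words such that a word `b₁ ⋯ bₘ` is accepted by `N` if and only if `u φ(b₁) ⋯ φ(bₘ) v` is accepted by
`U` with a queue of length `k`. -/
theorem result (strict : Prop) :
    (∀ (A : Type) [Finite A] (T : QM A) (n : ℕ), 2 ≤ n →
      (∃ M : LimAut A, M.language strict = T.language (n ^ 2) ∧
        M.size ≤ 253 * (Nat.card T.S * Nat.card T.Y) ^ 2 * (Nat.card A + Nat.card T.Y) *
          (n + 1)) ∧
      (∃ M : LimAut A, M.Deterministic ∧ M.language strict = T.language (n ^ 2) ∧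
        M.size = detSize strict (T.language (n ^ 2))) ∧
      detSize strict (T.language (n ^ 2)) ≤ D strict
        (253 * (Nat.card T.S * Nat.card T.Y) ^ 2 * (Nat.card A + Nat.card T.Y) * (n + 1))) ∧
    (∀ n : ℕ, 2 ≤ n → detSize strict (U.language (n ^ 2)) ≤ D strict (307648 * (n + 1))) ∧
    (∀ (k : ℕ), 1 ≤ k → ∀ (B σ : Type) [Finite σ] (N : NFA B σ), Nat.card σ ≤ 2 ^ k →
      ∃ (u v : List Letter) (φ : B → List Letter), ∀ w : List B,
        (w ∈ N.accepts ↔ u ++ w.flatMap φ ++ v ∈ U.language k)) := by
  refine ⟨fun A _ T n hn => ⟨accepted strict A T n hn, detSize_le strict A T n hn⟩, ?_, ?_⟩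
  · intro n hn
    have h := (detSize_le strict Letter U n hn).2
    have h1 : Nat.card U.S = 4 := by
      show Nat.card Ctl = 4
      rw [Nat.card_eq_fintype_card]
      rfl
    have h2 : Nat.card U.Y = 2 := by
      show Nat.card Bool = 2
      rw [Nat.card_eq_fintype_card]
      rfl
    have h3 : Nat.card Letter = 17 := by
      rw [Nat.card_eq_fintype_card]
      rfl
    rw [h1, h2, h3] at h
    norm_num at h
    exact h
  · intro k hk B σ _ N hN
    exact universal k hk B σ N hN

end Pool.Agent.Results.MP_0036f5_lc.QueueMachines
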