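import Mathlib
import Pool.Agent.L0h67.LS.OneW
import Pool.Agent.Results.MP_0036f5_lc.QuadraticExponent

/-!
# Determinizing 1-limited automata and the Sakoda-Sipser problem on short inputs

The cost `D(n)` of determinizing 1-limited automata (LAs) lies between `2 ^ Ω(n ^ 2)` and
`2 ^ O(n ^ 4)` (the starting files of this problem). Here the remaining gap is tied to the
simulation of one-way nondeterministic automata by two-way deterministic automata **on short
inputs**. Let `shortCost N` be the least `S` such that every one-way nondeterministic automaton with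
at most `N` states and at most `N` letters has a two-way deterministic automaton with at most `S`
states which agrees with it on all inputs of length at most `N`. It is not known whether `shortCost`
is bounded by a polynomial; this is the case if and only if `NL` is contained in `L/poly` (Kapoutsis
and Pighizzini). We show
* `D(n) ≤ 2 ^ (6 n ^ 2) * shortCost(2 ^ (n ^ 2 + 1)) ^ 2`;
* so if `shortCost` is polynomial then `D(n) = 2 ^ Θ(n ^ 2)`; in other words, a lower bound
  `D(n) ≥ 2 ^ ω(n ^ 2)` needs a superpolynomial lower bound for `shortCost`;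
* every one-way nondeterministic automaton with at most `N` states and letters has an equivalent
  deterministic 1-limited automaton, correct on inputs of any length, of size at most
  `2 ^ 17 * N ^ 5 * shortCost(4 N) ^ 2`.

Proof. The deterministic LA annotates each block of `B` cells by the set of the states in which the
given one-way automaton can be at the beginning of the block. To find the next bit it runs, for each
marked state of the last complete block, a two-way deterministic automaton on that block, with
simulated end-markers and with a clock.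
-/

set_option autoImplicit false

namespace Pool.Agent.Results.MP_0036f5_lc.ShortInputs

open Pool.Agent.H630R2.LA Pool.Agent.L0h67.LS Filter
open Pool.Agent.Y527.LA (OneWay NeverRewrites)

/-- The least `S` such that every one-way nondeterministic automaton with at most `N` states over an
alphabet with at most `N` letters has a two-way deterministic automaton with at most `S` states
which agrees with it on all inputs of length at most `N`. -/
noncomputable def shortCost (strict : Prop) (N : ℕ) : ℕ := sInf {S | Short strict N S}

theorem shortCost_isLeast (strict : Prop) (N : ℕ) :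
    IsLeast {S | Short strict N S} (shortCost strict N) :=
  ⟨Nat.sInf_mem ⟨_, short_subset strict N⟩, fun _ h => Nat.sInf_le h⟩

theorem D_le (strict : Prop) (n : ℕ) :
    D strict n ≤ 2 ^ (6 * n ^ 2) * shortCost strict (2 ^ (n ^ 2 + 1)) ^ 2 := by
  unfold D
  rcases Set.eq_empty_or_nonempty (costs strict n) with h | h
  · rw [h]
    simp
  · apply csSup_le h
    rintro s ⟨A, hA, M, hM, rfl⟩
    obtain ⟨M', h1, h2, h3⟩ := upperS M strict hM (shortCost_isLeast strict _).1
    have h4 : detSize strict (M.language strict) ≤ M'.size := Nat.sInf_le ⟨M', h1, h2, rfl⟩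
    exact h4.trans h3

theorem D_poly (strict : Prop) (c : ℕ) (h : ∀ᶠ N : ℕ in atTop, shortCost strict N ≤ N ^ c) :
    ∀ᶠ n : ℕ in atTop, D strict n ≤ 2 ^ ((4 * c + 6) * n ^ 2) := by
  have ht : Tendsto (fun n : ℕ => 2 ^ (n ^ 2 + 1)) atTop atTop := by
    apply tendsto_atTop_mono (f := fun n : ℕ => n) _ tendsto_id
    intro n
    calc n ≤ 2 ^ n := (Nat.lt_two_pow_self).le
      _ ≤ 2 ^ (n ^ 2 + 1) := Nat.pow_le_pow_right (by omega) (by nlinarith)
  filter_upwards [ht.eventually h, eventually_ge_atTop 1] with n hn h1
  refine (D_le strict n).trans ?_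
  calc 2 ^ (6 * n ^ 2) * shortCost strict (2 ^ (n ^ 2 + 1)) ^ 2
      ≤ 2 ^ (6 * n ^ 2) * ((2 ^ (n ^ 2 + 1)) ^ c) ^ 2 :=
        Nat.mul_le_mul_left _ (Nat.pow_le_pow_left hn 2)
    _ = 2 ^ (6 * n ^ 2 + (n ^ 2 + 1) * c * 2) := by
        rw [← pow_mul, ← pow_mul, ← pow_add]
        congr 1
        ring
    _ ≤ 2 ^ ((4 * c + 6) * n ^ 2) := by
        apply Nat.pow_le_pow_right (by omega)
        have h2 : 1 ≤ n ^ 2 := Nat.one_le_pow _ _ h1
        nlinarith

/-- **The cost of determinizing 1-limited automata against the cost of simulating one-way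
nondeterministic automata by two-way deterministic automata on short inputs.** `shortCost N` is
the least `S` such that every one-way nondeterministic automaton with at most `N` states and at
most `N` letters has a two-way deterministic automaton with at most `S` states which agrees with it
on all inputs of length at most `N` (1). Then
(2) `D(n) ≤ 2 ^ (6 n ^ 2) * shortCost(2 ^ (n ^ 2 + 1)) ^ 2` for every `n`; more precisely every
1-limited automaton of size at most `n` has an equivalent deterministic one of this size;
(3) if `shortCost N ≤ N ^ c` for all large `N`, then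
`2 ^ (n ^ 2 / 4000000) ≤ D(n) ≤ 2 ^ ((4 c + 6) n ^ 2)` for all large `n` (the first inequality, which
holds without assumption, is stated as `2 ^ (n ^ 2) ≤ D(n) ^ 4000000`);
(4) if `D(n)` is not `2 ^ O(n ^ 2)`, then `shortCost` is not bounded by any polynomial;
(5) every one-way nondeterministic automaton with at most `N` states and letters has an equivalent
deterministic 1-limited automaton of size at most `2 ^ 17 * N ^ 5 * shortCost(4 N) ^ 2`; the
equivalence holds for inputs of every length.
All this holds for both readings `strict` of the rule that visited cells are frozen. -/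
theorem result (strict : Prop) :
    (∀ N : ℕ, IsLeast {S : ℕ | ∀ (A : Type) (_ : Finite A) (M : LimAut A), OneWay M →
      NeverRewrites M → Nat.card A ≤ N → Nat.card M.Q ≤ N →
      ∃ M' : LimAut A, M'.Deterministic ∧ NeverRewrites M' ∧ Nat.card M'.Q ≤ S ∧
        ∀ w : List A, w.length ≤ N → (w ∈ M'.language strict ↔ w ∈ M.language strict)}
      (shortCost strict N)) ∧
    (∀ n : ℕ, D strict n ≤ 2 ^ (6 * n ^ 2) * shortCost strict (2 ^ (n ^ 2 + 1)) ^ 2 ∧
      ∀ (A : Type) [Finite A] (M : LimAut A), M.size ≤ n → ∃ M' : LimAut A, M'.Deterministic ∧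
        M'.language strict = M.language strict ∧
        M'.size ≤ 2 ^ (6 * n ^ 2) * shortCost strict (2 ^ (n ^ 2 + 1)) ^ 2) ∧
    (∀ c : ℕ, (∀ᶠ N : ℕ in atTop, shortCost strict N ≤ N ^ c) →
      ∀ᶠ n : ℕ in atTop, 2 ^ (n ^ 2) ≤ D strict n ^ 4000000 ∧
        D strict n ≤ 2 ^ ((4 * c + 6) * n ^ 2)) ∧
    ((∀ C : ℕ, ∃ᶠ n : ℕ in atTop, 2 ^ (C * n ^ 2) < D strict n) →
      ∀ c : ℕ, ∃ᶠ N : ℕ in atTop, N ^ c < shortCost strict N) ∧
    (∀ (A : Type) [Finite A] (M : LimAut A) (N : ℕ), OneWay M → NeverRewrites M →
      Nat.card A ≤ N → Nat.card M.Q ≤ N → ∃ M' : LimAut A, M'.Deterministic ∧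
        M'.language strict = M.language strict ∧
        M'.size ≤ 2 ^ 17 * N ^ 5 * shortCost strict (4 * N) ^ 2) := by
  refine ⟨shortCost_isLeast strict, fun n => ⟨D_le strict n, ?_⟩, ?_, ?_, ?_⟩
  · intro A _ M hM
    exact upperS M strict hM (shortCost_isLeast strict _).1
  · intro c hc
    filter_upwards [D_poly strict c hc, eventually_ge_atTop 66500] with n h1 h2
    exact ⟨(QuadraticExponent.result strict).2.1 n h2, h1⟩
  · intro h c
    by_contra hcon
    have h1 : ∀ᶠ N : ℕ in atTop, shortCost strict N ≤ N ^ c := by
      rw [Filter.not_frequently] at hcon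
      exact hcon.mono fun N hN => not_lt.1 hN
    obtain ⟨n, h2, h3⟩ := ((h (4 * c + 6)).and_eventually (D_poly strict c h1)).exists
    omega
  · intro A _ M N h1 h2 h3 h4
    exact oneWay_det M h1 h2 h3 h4 (shortCost_isLeast strict _).1

end Pool.Agent.Results.MP_0036f5_lc.ShortInputs
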