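import Pool.Agent.L0h32.CX.All
import Pool.Agent.L0h32.UX.All
import Pool.Agent.L0h32.UY.All
import Pool.Agent.L0h32.UY.AllU
import Pool.Agent.L0h32.UY.Cost

/-!
# Unambiguous and self-verifying 1-limited automata

The cost `D(n)` of determinizing 1-limited automata (LAs) lies between `2 ^ Ω(n ^ 2)` and
`2 ^ O(n ^ 4)` (the starting files of this problem). Here we show that almost everything that a
deterministic automaton has, up to determinism itself, costs `2 ^ Θ(n ^ 2)`: uniqueness of the
accepting computation, and a certificate for the answer no. We consider
* `UA(n)`, the cost of ambiguity: the maximum, over all LAs `M` of size at most `n`, of the least size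
  of an unambiguous LA for `L(M)` (at most one accepting computation on every word);
* `C(n)`, the cost of the complement: the least size of an LA that accepts the complement of `L(M)`;
* `V(n)`, the cost of the conversion into a self-verifying LA: it has accepting states `F` and
  rejecting states `G`; on every word of `L(M)` there is a computation that ends in `F` and none that
  ends in `G`, on every other word there is a computation that ends in `G` and none that ends in `F`;
* `U(n)`, the cost of the conversion into an unambiguous self-verifying LA: on **every** word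
  **exactly one** computation ends in `F ∪ G`, and it ends in `F` if and only if the word is in the
  language.

All four are `2 ^ Θ(n ^ 2)`: `2 ^ (n ^ 2 / (2 * 10 ^ 11)) ≤ C(n) ≤ V(n) ≤ U(n)`,
`2 ^ (n ^ 2 / (2 * 10 ^ 11)) ≤ UA(n) ≤ U(n) ≤ 2 ^ (300 n ^ 2)` (and `C(n) ≤ 2 ^ (50 n ^ 2)`). The
unambiguous self-verifying LAs of the upper bound have no choice what to write: the symbols written
are determined by the input. So the gap between `2 ^ Ω(n ^ 2)` and `2 ^ O(n ^ 4)` that is open for
`D(n)` is entirely the cost of the step from unambiguous self-verifying LAs, with moves as the only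
choice, to deterministic ones.

For one-way nondeterministic automata with less than `r` states and less than `r` letters the
conversion into unambiguous self-verifying LAs is polynomial, of size `(2 r) ^ 448` (the known
conversion into deterministic LAs is quasi-polynomial, and into one-way automata for the complement
it is exponential).

Upper bound. An LA of size `n` is turned into a one-way nondeterministic automaton with `2 ^ h`
states, `h = O(n ^ 2)` (starting files). The new LA works in blocks of `2 ^ h` cells and writes on the
`i`-th cell of a block, at the first visit, whether the state `i` is reachable at the beginning of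
the block. In the starting files these bits are computed with Savitch's procedure. Here they are
found with the double counting of Reinhardt and Allender, relative to weights on the transitions at
the positions of two blocks: the machine goes through the layers after `l = 0, 1, 2, ...` letters
from the beginning of the last complete block, knows the number of the reachable states and the sum
of their minimal weights, guesses all the paths of minimal weight, and obtains the two numbers for
the next layer. This is unambiguous as long as the paths of minimal weight are unique; the machine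
notices if this fails in the next layer, and then it takes the next weight function. By the isolation
lemma and the length `2 ^ h` of the blocks `2 ^ O(h)` weight functions are sufficient for all words of
all lengths. (For Turing machines one knows only `NL/poly = UL/poly`.)

Lower bounds. The witness is the one of the starting file `TimeSize`: a word codes a set `G` of `m × m`
bit matrices, some padding, and the list of the matrices outside a set `H`; it is accepted if and
only if `G` is not a subset of `H`. The computations of an LA `M'` with `q` states are cut at a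
boundary in the padding, and labelled by the table of the trips that are possible to the left of it
and the state at the first crossing; there are `2 ^ (q ^ 2) * q` labels. If `M'` accepts the
complement, then the words with `H = G` need different labels. If `M'` is unambiguous and accepts the
language itself, then for every accepted word exactly one label is possible (different labels give
different computations), so that the number of labels is at least the rank of the matrix
`[G ⊄ H]`, which is at least `2 ^ 2 ^ (m ^ 2) - 1`.

The modules of the proof were written by helpers 2 (BCK), 4 (LAY), 6 (ISO, AVG), 10 (LYR), 24 (CMP,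
CUT), 29 (CARD, WGT), 33 (SND, CMP), 34 (MOV, PTH), 36 (ALL), 39 (DWU), 55 (BND), 56 (HOP, UPP), 59 (UNI, MV0),
60 (BDG), 66 (PTH, UPP), 71 (YES, EXI), 75 (MOV), 78 (LOW, WG, FST), 83 (ENU), 85 (CARD), 88 (NXT),
90 (ENU, RNK), 95 (LOC, UNA) and 32.
-/

set_option autoImplicit false

namespace Pool.Agent.Results.MP_0036f5_lc.UnambiguousCost

open Pool.Agent.H630R2.LA Pool.Agent.TH705.LB Pool.Agent.N602.FT
open Pool.Agent.L0h32.CX (compCosts C svCosts V SelfVerifying C_greatest V_greatest C_lower C_le_V
  C_le)
open Pool.Agent.L0h32.UX (IsRun UniqueVerdict uvCosts U U_greatest U_le V_le_U)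
open Pool.Agent.L0h32.UY (Unambiguous uaCosts UA UA_greatest UA_le_U UA_lower low_states ua_of_uv
  t_CUT t_FST t_RNK DetWrites core_u la_rel nfa_rel exists_h t_DWU)

/-- For both readings `strict` of the rule that visited cells are frozen: for 1-limited automata the
cost `C(n)` of the complement, the cost `UA(n)` of the conversion into unambiguous automata, the cost
`V(n)` of the conversion into self-verifying automata and the cost `U(n)` of the conversion into
unambiguous self-verifying automata are `2 ^ Θ(n ^ 2)`. -/
theorem result (strict : Prop) :
    (∀ n : ℕ, 4 ≤ n → IsGreatest (compCosts strict n) (C strict n) ∧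
      IsGreatest (svCosts strict n) (V strict n) ∧ IsGreatest (uaCosts strict n) (UA strict n) ∧
      IsGreatest (uvCosts strict n) (U strict n)) ∧
    (∀ n : ℕ, 680000 ≤ n → 2 ^ (n ^ 2 / (2 * 10 ^ 11)) ≤ C strict n ∧
      2 ^ (n ^ 2 / (2 * 10 ^ 11)) ≤ UA strict n) ∧
    (∀ n : ℕ, C strict n ≤ V strict n ∧ V strict n ≤ U strict n ∧ UA strict n ≤ U strict n ∧
      U strict n ≤ 2 ^ (300 * n ^ 2) ∧ C strict n ≤ 2 ^ (50 * n ^ 2)) ∧
    (∀ (A : Type) [Finite A] (M : LimAut A) (n : ℕ), M.size ≤ n →
      ∃ (M' : LimAut A) (G : Set M'.Q), UniqueVerdict strict M' G ∧ SelfVerifying strict M' G ∧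
        Unambiguous strict M' ∧ DetWrites strict M' ∧ M'.language strict = M.language strict ∧
        M'.size + G.ncard ≤ 2 ^ (300 * n ^ 2)) ∧
    (∀ (A σ : Type) [Finite A] [Finite σ] (P : NFA A σ) (r : ℕ), Nat.card σ < r → Nat.card A < r →
      ∃ (M' : LimAut A) (G : Set M'.Q), UniqueVerdict strict M' G ∧ SelfVerifying strict M' G ∧
        Unambiguous strict M' ∧ DetWrites strict M' ∧ M'.language strict = {w | w ∈ P.accepts} ∧
        M'.size + G.ncard ≤ (2 * r) ^ 448) ∧
    (∀ m : ℕ, ∃ M : LimAut (BL Ltr), M.size ≤ 170000 * (m + 1) ∧
      (∀ M' : LimAut (BL Ltr), M'.language strict = (M.language strict)ᶜ →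
        2 ^ 2 ^ (m ^ 2) ≤ 2 ^ (Nat.card M'.Q ^ 2) * Nat.card M'.Q) ∧
      (∀ M' : LimAut (BL Ltr), Unambiguous strict M' → M'.language strict = M.language strict →
        2 ^ 2 ^ (m ^ 2) ≤ 2 ^ (Nat.card M'.Q ^ 2) * Nat.card M'.Q + 1)) := by
  have hU := Pool.Agent.L0h32.CX.t_UPP
  have hN := Pool.Agent.L0h32.CX.t_UNI
  have hP := Pool.Agent.L0h32.UX.t_UPP
  refine ⟨fun n hn => ⟨C_greatest hU strict n hn, V_greatest hU hN strict n hn,
    UA_greatest hP strict n hn, U_greatest hP strict n hn⟩,
    fun n hn => ⟨C_lower hU Pool.Agent.L0h32.CX.t_LOW strict n hn,
      UA_lower hP strict t_CUT t_FST t_RNK n hn⟩,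
    fun n => ⟨C_le_V hU hN strict n, V_le_U hP strict n, UA_le_U hP strict n, U_le hP strict n,
      C_le hU strict n⟩, ?_, ?_,
    fun m => ⟨bwit m, size_bwit m, fun M' h => Pool.Agent.L0h32.CX.t_LOW m strict M' h,
      fun M' hu h => low_states t_CUT t_FST t_RNK m strict M' hu h⟩⟩
  · intro A _ M n hn
    obtain ⟨h1, h2, rel, p0, facc, h3⟩ := la_rel strict M n hn
    obtain ⟨M', G, h4, h5, h6, h7⟩ := core_u Pool.Agent.L0h85.UX.t_CARD Pool.Agent.L0h32.UX.t_WGT
      Pool.Agent.L0h32.UX.t_UNA Pool.Agent.L0h32.UX.t_CMP t_DWU strict (n ^ 2) rel p0 facc h1
    refine ⟨M', G, h4, h4.sv, ua_of_uv h4, h5, ?_,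
      h7.trans (Nat.pow_le_pow_right (by norm_num) h2)⟩
    ext w
    rw [h6, h3]
  · intro A σ _ _ P r h1 h2
    obtain ⟨h, h3, h4⟩ := exists_h r (by omega)
    obtain ⟨rel, p0, facc, h5⟩ := nfa_rel P h (by omega)
    obtain ⟨M', G, h6, h7, h8, h9⟩ := core_u Pool.Agent.L0h85.UX.t_CARD Pool.Agent.L0h32.UX.t_WGT
      Pool.Agent.L0h32.UX.t_UNA Pool.Agent.L0h32.UX.t_CMP t_DWU strict h rel p0 facc (by omega)
    refine ⟨M', G, h6, h6.sv, ua_of_uv h6, h7, ?_, h9.trans h4⟩
    ext w
    rw [h8]
    exact (h5 w).symm

end Pool.Agent.Results.MP_0036f5_lc.UnambiguousCost
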